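import Mathlib
import Pool.Agent.W732.Ud.Stm

set_option autoImplicit false
set_option linter.unusedVariables false

open Metric Set Filter Topology Complex

namespace Pool.Agent.W930.Ud

open Pool.Agent.W732.Cor (V mv tau)
open Pool.Agent.W732.Ud

variable {m : ℕ}

/-- the slice map -/
noncomputable def sl (p : V m) (ζ : ℂ) (z : V m) : V m :=
  (inner ℂ p z : ℂ) • p + ζ • (z - (inner ℂ p z : ℂ) • p)

lemma inner_y (p : V m) (hp : ‖p‖ = 1) (z : V m) :
    (inner ℂ p (z - (inner ℂ p z : ℂ) • p) : ℂ) = 0 := by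
  rw [inner_sub_right, inner_smul_right, inner_self_eq_norm_sq_to_K, hp]
  simp

lemma norm_sl (p : V m) (hp : ‖p‖ = 1) (ζ : ℂ) (z : V m) :
    ‖sl p ζ z‖ ^ 2 = ‖(inner ℂ p z : ℂ)‖ ^ 2 +
      ‖ζ‖ ^ 2 * ‖z - (inner ℂ p z : ℂ) • p‖ ^ 2 := by
  unfold sl
  have h0 : (inner ℂ ((inner ℂ p z : ℂ) • p) (ζ • (z - (inner ℂ p z : ℂ) • p)) : ℂ) = 0 := by
    rw [inner_smul_left, inner_smul_right, inner_y p hp z]
    simp
  have h1 := norm_add_sq_eq_norm_sq_add_norm_sq_of_inner_eq_zero _ _ h0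
  rw [← pow_two, ← pow_two, ← pow_two] at h1
  rw [h1, norm_smul, norm_smul, hp]
  ring

lemma norm_sl_one (p : V m) (hp : ‖p‖ = 1) (ζ : ℂ) (hζ : ‖ζ‖ = 1) (z : V m) :
    ‖sl p ζ z‖ = ‖z‖ := by
  have h1 := norm_sl p hp ζ z
  have h2 := norm_sl p hp 1 z
  have e : sl p 1 z = z := by
    unfold sl
    rw [one_smul]
    abel
  rw [e] at h2
  rw [hζ] at h1
  rw [norm_one] at h2
  rw [← h2] at h1
  exact (pow_left_inj₀ (norm_nonneg _) (norm_nonneg _) (by norm_num : (2 : ℕ) ≠ 0)).1 h1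

lemma inner_sl (p : V m) (hp : ‖p‖ = 1) (ζ : ℂ) (z : V m) :
    (inner ℂ p (sl p ζ z) : ℂ) = inner ℂ p z := by
  unfold sl
  rw [inner_add_right, inner_smul_right, inner_smul_right, inner_y p hp z,
    inner_self_eq_norm_sq_to_K, hp]
  simp

lemma tau_sl (p : V m) (hp : ‖p‖ = 1) (t : ℝ) (ht : t ≠ 0) (z : V m) :
    tau p t (sl p (1 / t) z) = z := by
  unfold tau
  rw [inner_sl p hp]
  unfold sl
  rw [add_sub_cancel_left, smul_smul]
  have : (t : ℂ) * (1 / t) = 1 := by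
    have : (t : ℂ) ≠ 0 := by exact_mod_cast ht
    field_simp
  rw [this, one_smul]
  abel

lemma diff_sl (p : V m) (ζ : ℂ) : Differentiable ℂ (sl p ζ) := by
  have h : Differentiable ℂ (fun z : V m => (inner ℂ p z : ℂ)) := (innerSL ℂ p).differentiable
  unfold sl
  exact (h.smul_const p).add ((differentiable_id.sub (h.smul_const p)).const_smul ζ)

theorem main : S_pd → S_thin1 → S_thin2 := by
  intro hpd hthin m p hp N δ ρ t hδ hρ hρt ht1
  have ht0 : 0 < t := hρ.trans hρt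
  obtain ⟨K0, hK0⟩ := hpd m p hp N δ hδ t ht0.le ht1
  obtain ⟨C1, hC1⟩ := hthin ρ t hρ hρt ht1
  set K := max K0 1 with hK
  have hK1 : 1 ≤ K := le_max_right _ _
  have hKpos : 0 < K := by linarith
  set C1' := max C1 0 with hC1'
  have hC1'0 : 0 ≤ C1' := le_max_right _ _
  have hr : 1 < 1 / t := by rw [lt_div_iff₀ ht0]; linarith
  have hr0 : 0 < 1 / t - 1 := by linarith
  refine ⟨K / (1 / t - 1) + N * K * C1', by positivity, ?_⟩
  intro M hM f hf
  obtain ⟨g, hgd, hgb, hgs⟩ := hK0 f hf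
  have hM0 : (0 : ℝ) < M := by exact_mod_cast hM
  let ω : ℕ → ℂ := fun j => exp (2 * Real.pi * I * (j / M : ℂ))
  have hω : ∀ j, ‖ω j‖ = 1 := by
    intro j
    have : (2 * Real.pi * I * (j / M : ℂ)) = ((2 * Real.pi * (j / M : ℝ) : ℝ) : ℂ) * I := by
      push_cast; ring
    change ‖exp (2 * Real.pi * I * (j / M : ℂ))‖ = 1
    rw [this, norm_exp_ofReal_mul_I]
  let w : ℕ → ℂ := fun j => ∑ k ∈ Finset.range M, ((t * ω j)⁻¹ : ℂ) ^ k
  have hw : ∀ j, ‖w j‖ ≤ (1 / t) ^ M / (1 / t - 1) := by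
    intro j
    calc ‖w j‖ ≤ ∑ k ∈ Finset.range M, ‖((t * ω j)⁻¹ : ℂ) ^ k‖ := norm_sum_le _ _
      _ = ∑ k ∈ Finset.range M, (1 / t) ^ k := by
          refine Finset.sum_congr rfl fun k _ => ?_
          rw [norm_pow, norm_inv, norm_mul, hω j, mul_one, norm_real, Real.norm_of_nonneg ht0.le,
            one_div]
      _ = ((1 / t) ^ M - 1) / (1 / t - 1) := geom_sum_eq hr.ne' M
      _ ≤ _ := by
          gcongr
          linarith
  refine ⟨fun i z => (1 / M : ℂ) * ∑ j ∈ Finset.range M, g i (sl p (ω j) z) * w j, ?_, ?_, ?_⟩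
  · intro i
    have h1 : ∀ j, DifferentiableOn ℂ (fun z => g i (sl p (ω j) z)) (ball 0 1) := by
      intro j
      refine (hgd i).comp (diff_sl p (ω j)).differentiableOn ?_
      intro z hz
      rw [mem_ball_zero_iff] at hz ⊢
      rw [norm_sl_one p hp _ (hω j)]
      exact hz
    refine DifferentiableOn.const_mul ?_ _
    have h2 : DifferentiableOn ℂ (∑ j ∈ Finset.range M, fun z => g i (sl p (ω j) z) * w j)
        (ball 0 1) := DifferentiableOn.sum fun j _ => (h1 j).mul_const _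
    refine h2.congr ?_
    intro z _
    rw [Finset.sum_apply]
  · intro i z hz
    have h1 : ∀ j, ‖g i (sl p (ω j) z)‖ ≤ K := by
      intro j
      refine (hgb i _ ?_).trans (le_max_left _ _)
      rw [mem_ball_zero_iff] at hz ⊢
      rw [norm_sl_one p hp _ (hω j)]
      exact hz
    rw [norm_mul]
    have h2 : ‖(1 / M : ℂ)‖ = 1 / M := by
      rw [norm_div, norm_one, norm_natCast]
    rw [h2]
    calc (1 / M : ℝ) * ‖∑ j ∈ Finset.range M, g i (sl p (ω j) z) * w j‖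
        ≤ (1 / M : ℝ) * ∑ j ∈ Finset.range M, K * ((1 / t) ^ M / (1 / t - 1)) := by
          gcongr
          refine (norm_sum_le _ _).trans (Finset.sum_le_sum fun j _ => ?_)
          rw [norm_mul]
          exact mul_le_mul (h1 j) (hw j) (norm_nonneg _) hKpos.le
      _ = K / (1 / t - 1) * (1 / t) ^ M := by
          rw [Finset.sum_const, Finset.card_range, nsmul_eq_mul]
          field_simp
      _ ≤ _ := by
          gcongr
          have : 0 ≤ N * K * C1' := by positivity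
          linarith
  · intro z hz
    obtain ⟨hz1, hz2⟩ := hz
    set ξ : ℂ := inner ℂ p z with hξ
    have hξ1 : ‖ξ‖ < 1 := by
      rw [mem_ball_zero_iff] at hz1
      calc ‖ξ‖ ≤ ‖p‖ * ‖z‖ := norm_inner_le_norm _ _
        _ < 1 := by rw [hp, one_mul]; exact hz1
    have hξ2 : 0 < 1 - ‖ξ‖ ^ 2 := by nlinarith [norm_nonneg ξ]
    have hin : ∀ ζ ∈ ball (0 : ℂ) (1 / ρ), sl p ζ z ∈ ball (0 : V m) 1 := by
      intro ζ hζ
      rw [mem_ball_zero_iff] at hζ ⊢
      have h1 : ‖ζ‖ * ρ < 1 := by rwa [lt_div_iff₀ hρ] at hζ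
      have h2 : ‖ζ‖ ^ 2 * ρ ^ 2 < 1 := by
        rw [← mul_pow]
        exact pow_lt_one₀ (by positivity) h1 (by norm_num)
      have h3 : ‖sl p ζ z‖ ^ 2 < 1 := by
        rw [norm_sl p hp]
        calc ‖ξ‖ ^ 2 + ‖ζ‖ ^ 2 * ‖z - ξ • p‖ ^ 2
            ≤ ‖ξ‖ ^ 2 + ‖ζ‖ ^ 2 * (ρ ^ 2 * (1 - ‖ξ‖ ^ 2)) := by gcongr
          _ = ‖ξ‖ ^ 2 + (‖ζ‖ ^ 2 * ρ ^ 2) * (1 - ‖ξ‖ ^ 2) := by ring
          _ < 1 := by nlinarith
      nlinarith [norm_nonneg (sl p ζ z)]
    have htin : (1 / t : ℂ) ∈ ball (0 : ℂ) (1 / ρ) := by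
      rw [mem_ball_zero_iff, norm_div, norm_one, norm_real, Real.norm_of_nonneg ht0.le]
      exact one_div_lt_one_div_of_lt hρ hρt
    have hkey : ∀ i, ‖g i (sl p (1 / t) z) -
        (1 / M : ℂ) * ∑ j ∈ Finset.range M, g i (sl p (ω j) z) * w j‖ ≤
        K * C1' * (ρ / t) ^ M := by
      intro i
      have hKc : (K : ℂ) ≠ 0 := by exact_mod_cast hKpos.ne'
      have h1 := hC1 M hM (fun ζ => (K : ℂ)⁻¹ * g i (sl p ζ z)) (by
        refine DifferentiableOn.const_mul ?_ _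
        refine (hgd i).comp ?_ hin
        have : Differentiable ℂ (fun ζ : ℂ => sl p ζ z) := by
          unfold sl
          exact (differentiable_id.smul_const _).const_add _
        exact this.differentiableOn) (by
        intro ζ hζ
        rw [norm_mul, norm_inv, norm_real, Real.norm_of_nonneg hKpos.le, inv_mul_le_iff₀ hKpos,
          mul_one]
        exact (hgb i _ (hin ζ hζ)).trans (le_max_left _ _))
      have h2 : (K : ℂ)⁻¹ * g i (sl p (1 / t) z) - (1 / M : ℂ) * ∑ j ∈ Finset.range M,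
          ((K : ℂ)⁻¹ * g i (sl p (exp (2 * Real.pi * I * (j / M : ℂ))) z)) *
          ∑ k ∈ Finset.range M, ((t * exp (2 * Real.pi * I * (j / M : ℂ)))⁻¹ : ℂ) ^ k =
          (K : ℂ)⁻¹ * (g i (sl p (1 / t) z) -
            (1 / M : ℂ) * ∑ j ∈ Finset.range M, g i (sl p (ω j) z) * w j) := by
        have h3 : ∑ j ∈ Finset.range M,
          ((K : ℂ)⁻¹ * g i (sl p (exp (2 * Real.pi * I * (j / M : ℂ))) z)) *
          ∑ k ∈ Finset.range M, ((t * exp (2 * Real.pi * I * (j / M : ℂ)))⁻¹ : ℂ) ^ k =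
          (K : ℂ)⁻¹ * ∑ j ∈ Finset.range M, g i (sl p (ω j) z) * w j := by
          rw [Finset.mul_sum]
          exact Finset.sum_congr rfl fun j _ => by rw [mul_assoc]
        rw [h3]
        ring
      rw [h2, norm_mul, norm_inv, norm_real, Real.norm_of_nonneg hKpos.le,
        inv_mul_le_iff₀ hKpos] at h1
      refine h1.trans ?_
      rw [mul_assoc]
      gcongr
      exact le_max_left _ _
    have hsum := hgs _ (hin _ htin)
    rw [tau_sl p hp t ht0.ne'] at hsum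
    have hfi : ∀ i, ‖f i z‖ ≤ 1 := fun i => hf.bd i z hz1
    calc ‖∑ i, f i z * ((1 / M : ℂ) * ∑ j ∈ Finset.range M, g i (sl p (ω j) z) * w j) - 1‖
        = ‖∑ i, f i z * (((1 / M : ℂ) * ∑ j ∈ Finset.range M, g i (sl p (ω j) z) * w j) -
            g i (sl p (1 / t) z))‖ := by
          congr 1
          rw [Finset.sum_congr rfl fun i _ => mul_sub (f i z) _ _, Finset.sum_sub_distrib, hsum]
      _ ≤ ∑ i : Fin N, K * C1' * (ρ / t) ^ M := by
          refine (norm_sum_le _ _).trans (Finset.sum_le_sum fun i _ => ?_)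
          rw [norm_mul, norm_sub_rev]
          calc _ ≤ 1 * (K * C1' * (ρ / t) ^ M) :=
                mul_le_mul (hfi i) (hkey i) (norm_nonneg _) zero_le_one
            _ = _ := one_mul _
      _ = N * K * C1' * (ρ / t) ^ M := by
          rw [Finset.sum_const, Finset.card_univ, Fintype.card_fin, nsmul_eq_mul]
          ring
      _ ≤ _ := by
          gcongr
          have : 0 ≤ K / (1 / t - 1) := by positivity
          linarith

end Pool.Agent.W930.Ud
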